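import Pool.Agent.W986.BF.Main

/-!
# Computing the bounded faces of a polyhedron: hardness of polynomial total time

The definitions are in `Pool.Agent.W986.BF.Defs`, `Pool.Agent.H633R2.FptDefs`,
`Pool.Agent.H633R2.GraphDefs` and `Pool.Agent.NPC.Defs`.
-/

namespace Pool.Agent.Results.MP_585ca9_lc.CliqueHard

open Turing Pool.Agent.NPC Pool.Agent.H633R2 Pool.Agent.W986.BF Pool.Agent.W986.TimeC

/-- Computing the Hasse diagram of the bounded faces of an unbounded pointed polyhedron in
polynomial total time is hard for the parameterized clique problem.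

First part (the reduction): a Turing machine computes, in polynomial time, from a graph `G` and a
number `k` an unbounded pointed polyhedron which, for `1 ≤ k ≤ |V(G)|`, has exactly `2 ^ k - 1`
bounded faces if `G` has no clique with `k` vertices, and at least `2 ^ k` if it has one.

Second part: if the Hasse diagram of the bounded faces can be computed in polynomial total time,
then clique can be decided in time polynomial in `|G| + 2 ^ k`, and all problems of the class
W[1] are fixed-parameter tractable. -/
theorem result :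
    (∃ f : List (List Bool) × ℕ → LinSys,
      (∃ (M : TM2ComputableAux Bool Bool) (p : Polynomial ℕ),
        ∀ x, TmRuns M (bits x) (bits (f x)) (p.eval (bits x).length)) ∧
      ∀ x, Instance (f x) ∧ (1 ≤ x.2 → x.2 ≤ x.1.length →
        (¬ HasClique x → (boundedFaces (f x)).encard = (2 ^ x.2 - 1 : ℕ)) ∧
        (HasClique x → (2 ^ x.2 : ℕ) ≤ (boundedFaces (f x)).encard))) ∧
    (PolyTotalTime →
      (∃ (d : List (List Bool) × ℕ → Bool) (M : TM2ComputableAux Bool Bool) (p : Polynomial ℕ),
        (∀ x, d x = true ↔ HasClique x) ∧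
        ∀ x, TmRuns M (bits x) (bits (d x)) (p.eval ((bits x).length + 2 ^ x.2))) ∧
      ∀ (α : Type) [TEnc α] (κ : α → ℕ) (P : α → Prop), InW1 κ P → IsFpt κ P) := by
  refine ⟨⟨SS, ?_, fun x => ⟨instance_SS x, fun h1 h2 => ?_⟩⟩, fun h => ?_⟩
  · obtain ⟨M, p, hM⟩ := (WT.of_poly (w := fun _ => 0) poly_SS).toTm
    exact ⟨M, p, fun x => by simpa using hM x⟩
  · have hg : good x = true := by
      simp only [good, Bool.and_eq_true, decide_eq_true_eq]; exact ⟨h1, h2⟩
    have e1 : nn x = x.1.length := by unfold nn; rw [hg]; rfl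
    have e2 : kk x = x.2 := by unfold kk; rw [hg]; rfl
    have hn : 0 < x.1.length := by omega
    have e3 : SS x = sysOf x.1.length x.2 (adjB x.1) := by unfold SS; rw [e1, e2]
    rw [e3]
    have e4 : HasClique x ↔ Cliq x.1.length x.2 (adjB x.1) := hasClique_iff x.1 x.2
    rw [e4]
    exact ⟨fun h => encard_noClique hn h1 h, fun h => encard_clique hn h1 h⟩
  · obtain ⟨d, hd, hT⟩ := clique_WT h
    obtain ⟨M, p, hM⟩ := hT.toTm
    refine ⟨⟨d, M, p, hd, hM⟩, fun α _ κ P hP => ?_⟩
    have hc : Computable (fun n : ℕ => 2 ^ n) := H633.two_pow_computable Computable.id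
    have hF : FptTime (fun x : List (List Bool) × ℕ => x.2) d :=
      WT.fpt (κ := fun x : List (List Bool) × ℕ => x.2) (h := fun n => 2 ^ n) hc hT
    exact IsFpt.of_reduces hP ⟨d, hF, hd⟩

end Pool.Agent.Results.MP_585ca9_lc.CliqueHard
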